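import Pool.Agent.H464R3.FortiB

set_option autoImplicit false

namespace Pool.Agent.Results.MP_12983e_an.ContinuousSolutions

/-- The continuous solutions `f : ℝ → ℝ` of `f (x + f x) = f x + f (f x)` are exactly the functions
which are nonnegative multiples of `x` on each of the two half-lines (with possibly different
slopes), and the linear functions with negative slope. -/
theorem result (f : ℝ → ℝ) :
    (Continuous f ∧ ∀ x : ℝ, f (x + f x) = f x + f (f x)) ↔
      ((∃ a b : ℝ, 0 ≤ a ∧ 0 ≤ b ∧ (∀ x : ℝ, 0 ≤ x → f x = a * x) ∧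
          (∀ x : ℝ, x ≤ 0 → f x = b * x)) ∨
        ∃ a : ℝ, a < 0 ∧ ∀ x : ℝ, f x = a * x) := by
  constructor
  · rintro ⟨hf, heq⟩
    exact H464.Forti.classification hf heq
  · rintro (h | ⟨a, -, ha⟩)
    · exact ⟨H464.Forti.continuous_of_twoSided h, H464.Forti.sol_of_twoSided h⟩
    · have hfa : f = fun x => a * x := funext ha
      refine ⟨?_, ?_⟩
      · rw [hfa]
        exact continuous_const.mul continuous_id
      · intro x
        rw [hfa]
        ring

end Pool.Agent.Results.MP_12983e_an.ContinuousSolutions
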